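import Pool.Agent.H217_D3.Graph

/-!
# Chromatic number and rank for Cayley graphs with a connection set of depth three

Let `A` be a finite abelian group. A set `T ⊆ A` is called local (with parameters `K`, `q`) if it is
given by any number of conditions `x ∉ B`, and by `q` conditions `x ∈ B_1 ∪ B_2 ∪ ...` (any number of
sets), where all the sets `B`, `B_i` are cosets of subgroups of index at most `K` (or empty). A set is of
depth three (with parameters `K`, `q`, `m`) if it is a union of `m` local sets. For instance, for
`A = F_2^n`, `K = 2 ^ k` and `q = 0` these are the sets accepted by the circuits of depth three with an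
OR gate of fan-in `m` at the top, AND gates of any fan-in in the middle, and OR gates of fan-in
`k` at the bottom, whose inputs are arbitrary parities of the variables and their negations.

Let the vertex set of the graph `G` be covered by the images of `t` maps `φ_i : A_i → V`, where the
`A_i` are finite abelian groups, and let `S_i ⊆ A_i` be sets such that `φ_i x` and `φ_i y` are adjacent if
and only if `x - y ∈ S_i` (for `t = 1` and bijective `φ_1` this is a Cayley graph of `A_1`). If each
`S_i`, or its complement, is of depth three with parameters `K`, `q`, `m`, then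
`log₂ χ(G) ≤ log₂ t + (log₂ r + 1) (K (log₂ r + log₂ m + 2) + q) log₂ K`, `r` being the real rank of the
adjacency matrix. There is no condition on the orders of the groups.

Proof. Let `W` be one of the groups and `f` the indicator function of `S` or of its complement,
`f ≠ 0`. The supports of `r + 1` translates of `f` cover `W`, so `f = 1` for at least one in
`r + 1` of the points of `W`, and one of the `m` local sets `T` is dense. If one of the sets `B` with
the condition `x ∉ B` meets `W`, then `T` is denser, by a factor `K / (K - 1)`, in another coset of the same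
subgroup. After `O(K log (r m))` such steps no such set is left, and a point of `T` has a
coset of index at most `K ^ (O(K log (r m)) + q)` around it which is contained in `T`. So the graph has no
edges, or all edges, between two cosets of a subgroup `U` of this index, and it follows that the rank of
`f (x - y)` is, up to 1, at most half as large on `U`. Iterate, with different colours for the cosets
of `U`.
-/

set_option autoImplicit false

namespace Pool.Agent.Results.MP_3bd889_lc.DepthThreeCayley

/-- `B` is empty or a coset of a subgroup of index at most `K` -/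
def SmallIndexCoset {A : Type} [AddCommGroup A] (K : ℕ) (B : Set A) : Prop :=
  B = ∅ ∨ ∃ (H : AddSubgroup A) (a : A), H.index ≤ K ∧ B = {x | x - a ∈ H}

/-- `T` is given by any number of conditions `x ∉ B` and by `q` conditions `x ∈ B_1 ∪ B_2 ∪ ...` with
cosets `B`, `B_i` of subgroups of index at most `K` -/
def LocalSet {A : Type} [AddCommGroup A] (K q : ℕ) (T : Set A) : Prop :=
  ∃ (𝒜 : Set (Set A)) (ℬ : Fin q → Set (Set A)), (∀ B ∈ 𝒜, SmallIndexCoset K B) ∧
    (∀ j, ∀ B ∈ ℬ j, SmallIndexCoset K B) ∧ T = {x | (∀ B ∈ 𝒜, x ∉ B) ∧ ∀ j, ∃ B ∈ ℬ j, x ∈ B}

/-- a union of `m` local sets -/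
def DepthThree {A : Type} [AddCommGroup A] (K q m : ℕ) (S : Set A) : Prop :=
  ∃ T : Fin m → Set A, (∀ i, LocalSet K q (T i)) ∧ S = {x | ∃ i, x ∈ T i}

/-- **Chromatic number and rank for Cayley graphs with a connection set of depth three.** -/
theorem result {V : Type} [Fintype V] (G : SimpleGraph V) [DecidableRel G.Adj] (K q m t : ℕ)
    (hK : 1 ≤ K) (A : Fin t → Type) [∀ i, AddCommGroup (A i)] [∀ i, Finite (A i)]
    (φ : ∀ i, A i → V) (hcov : ∀ v, ∃ i a, φ i a = v) (S : ∀ i, Set (A i))
    (hG : ∀ i x y, G.Adj (φ i x) (φ i y) ↔ x - y ∈ S i)
    (hS : ∀ i, DepthThree K q m (S i) ∨ DepthThree K q m (S i)ᶜ) :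
    Real.logb 2 (G.chromaticNumber.toNat : ℝ) ≤ Real.logb 2 t +
      (Real.logb 2 ((G.adjMatrix ℝ).rank : ℝ) + 1) *
        (K * (Real.logb 2 ((G.adjMatrix ℝ).rank : ℝ) + Real.logb 2 m + 2) + q) *
          Real.logb 2 K :=
  Pool.Agent.H217_D3.graph G hK A φ hcov S hG hS

end Pool.Agent.Results.MP_3bd889_lc.DepthThreeCayley
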